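import Pool.Agent.P.MP_7b3100_nt.B7.Main

/-! For every real `α ≠ 0` the integer part of `7 ^ n α` is composite infinitely often. -/

namespace Pool.Agent.Results.MP_7b3100_nt.BaseSeven

/-- `z` is composite: `|z| ≥ 2` and `|z|` is not prime. -/
def Composite (z : ℤ) : Prop := 2 ≤ z.natAbs ∧ ¬ z.natAbs.Prime

theorem result (α : ℝ) (hα : α ≠ 0) : {n : ℕ | Composite ⌊(7 : ℝ) ^ n * α⌋}.Infinite :=
  Set.infinite_of_forall_exists_gt fun N => by
    obtain ⟨n, h1, h2⟩ := Pool.Agent.P.MP_7b3100_nt.B7.base_seven hα (N + 1)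
    exact ⟨n, h2, h1⟩

end Pool.Agent.Results.MP_7b3100_nt.BaseSeven
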