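import Pool.Agent.P.MP_7b3100_nt.Lift

/-!
Composite values of the integer parts of `b^m α` when the digit word of `α` has many nested
repetitions, in particular when it is eventually recurrent.
-/

namespace Pool.Agent.Results.MP_7b3100_nt.Recurrent

open Pool.Agent.P.MP_7b3100_nt

/-- `z` is composite: `|z| ≥ 2` and `|z|` is not prime. -/
def Composite (z : ℤ) : Prop := 2 ≤ z.natAbs ∧ ¬ z.natAbs.Prime

/-- the integer part of `b^m α` -/
noncomputable def ip (b : ℕ) (α : ℝ) (m : ℕ) : ℤ := ⌊(b : ℝ) ^ m * α⌋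

/-- the integer whose base `b` digits are the digits appended between places `m` and `m'` -/
noncomputable def block (b : ℕ) (α : ℝ) (m m' : ℕ) : ℤ :=
  ip b α m' - (b : ℤ) ^ (m' - m) * ip b α m

/-- Cut the digit word at the places `n 0 < n 1 < ...`. Blocks number `i` and `j` agree modulo `q`
when `b ^ length` and the value of the block agree modulo `q`. -/
def Agree (b : ℕ) (α : ℝ) (n : ℕ → ℕ) (q i j : ℕ) : Prop :=
  b ^ (n (i + 1) - n i) ≡ b ^ (n (j + 1) - n j) [MOD q] ∧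
    block b α (n i) (n (i + 1)) ≡ block b α (n j) (n (j + 1)) [ZMOD q]

/-- The word of the first `L` blocks has a border of length `l` modulo `q`: its first `l` blocks
agree modulo `q` with its last `l` blocks. -/
def Border (b : ℕ) (α : ℝ) (n : ℕ → ℕ) (q L l : ℕ) : Prop :=
  1 ≤ l ∧ l ≤ L ∧ ∀ i < l, Agree b α n q (L - l + i) i

theorem exists_dvd {b : ℕ} {α : ℝ} {n : ℕ → ℕ} {q L : ℕ} (hq : q.Prime) (hbq : ¬ q ∣ b)
    (h0 : (q : ℤ) ∣ ip b α (n 0)) (B : Finset ℕ) (hB : q ≤ B.card)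
    (h : ∀ l ∈ B, Border b α n q L l) : ∃ t, 1 ≤ t ∧ (q : ℤ) ∣ ip b α (n t) := by
  have : Fact q.Prime := ⟨hq⟩
  let y : ℕ → ZMod q := fun i => (ip b α (n i) : ZMod q)
  let μ : ℕ → ZMod q := fun i => (b : ZMod q) ^ (n (i + 1) - n i)
  let v : ℕ → ZMod q := fun i => (block b α (n i) (n (i + 1)) : ZMod q)
  have hb0 : (b : ZMod q) ≠ 0 := by rwa [Ne, ZMod.natCast_eq_zero_iff]
  have hμ : ∀ i, μ i ≠ 0 := fun i => pow_ne_zero _ hb0
  have hy : ∀ i, y (i + 1) = μ i * y i + v i := by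
    intro i
    simp only [y, μ, v, block]
    push_cast
    ring
  have hag : ∀ i j, Agree b α n q i j → μ i = μ j ∧ v i = v j := by
    rintro i j ⟨h1, h2⟩
    refine ⟨?_, (ZMod.intCast_eq_intCast_iff _ _ _).mpr h2⟩
    have := (ZMod.natCast_eq_natCast_iff _ _ _).mpr h1
    simpa [μ] using this
  have hy0 : y 0 = 0 := (ZMod.intCast_zmod_eq_zero_iff_dvd _ _).mpr h0
  by_contra hcon
  have hne : ∀ t, 1 ≤ t → y t ≠ 0 := fun t ht h1 =>
    hcon ⟨t, ht, (ZMod.intCast_zmod_eq_zero_iff_dvd _ _).mp h1⟩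
  have key : ∀ l ∈ B, ∀ l' ∈ B, l < l' → y l ≠ y l' := by
    intro l hl l' hl' hlt he
    obtain ⟨h1, h2, h3⟩ := h l hl
    obtain ⟨h1', h2', h3'⟩ := h l' hl'
    have step : ∀ i ≤ l, y (l' - l + i) = y i → y (l' - l) = y 0 := by
      intro i hi
      induction i with
      | zero => simp
      | succ i ih =>
        intro hi'
        apply ih (by omega)
        have e1 := hag _ _ (h3 i (by omega))
        have e2 := hag _ _ (h3' (l' - l + i) (by omega))
        rw [show L - l' + (l' - l + i) = L - l + i by omega] at e2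
        rw [← add_assoc, hy, hy, ← e2.1, ← e2.2, e1.1, e1.2] at hi'
        exact mul_left_cancel₀ (hμ i) (add_right_cancel hi')
    have := step l le_rfl (by rw [Nat.sub_add_cancel hlt.le, he])
    exact hne (l' - l) (by omega) (this.trans hy0)
  have hinj : Set.InjOn y B := by
    intro l hl l' hl' he
    rcases lt_trichotomy l l' with h1 | h1 | h1
    · exact absurd he (key l hl l' hl' h1)
    · exact h1
    · exact absurd he.symm (key l' hl' l hl h1)
  have hcard : B.card ≤ (Finset.univ.erase (0 : ZMod q)).card :=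
    Finset.card_le_card_of_injOn y
      (fun l hl => by simpa using hne l (h l hl).1) hinj
  rw [Finset.card_erase_of_mem (Finset.mem_univ _), Finset.card_univ, ZMod.card] at hcard
  have := hq.pos
  omega

theorem result (b : ℕ) (hb : 2 ≤ b) (α : ℝ) (hα : α ≠ 0)
    (h : ∀ N : ℕ, ∃ s, N ≤ s ∧ ∀ q : ℕ, q.Prime → b < q → q ≤ (ip b α s).natAbs →
      ∃ n : ℕ → ℕ, StrictMono n ∧ n 0 = s ∧ ∃ (L : ℕ) (B : Finset ℕ), q ≤ B.card ∧
        ∀ l ∈ B, Border b α n q L l) :
    {m : ℕ | Composite (ip b α m)}.Infinite := by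
  obtain ⟨M, hM⟩ := eventually_grow b hb α hα b
  refine Set.infinite_of_forall_exists_gt fun N => ?_
  obtain ⟨s, hs, hq⟩ := h (M + N + 1)
  obtain ⟨h1, h2⟩ := hM s (by omega)
  by_cases hp : (ip b α s).natAbs.Prime
  · obtain ⟨n, hn, hn0, L, B, hB, hbd⟩ := hq _ hp h1 le_rfl
    obtain ⟨t, ht, hdvd⟩ := exists_dvd hp (Nat.not_dvd_of_pos_of_lt (by omega) h1)
      (by rw [hn0]; exact Int.natAbs_dvd.mpr dvd_rfl) B hB hbd
    have hlt : s < n t := hn0 ▸ hn (by omega : 0 < t)
    have h3 : (ip b α s).natAbs < (ip b α (n t)).natAbs := h2 _ hlt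
    refine ⟨n t, ⟨by have := hp.two_le; omega, fun hp' => ?_⟩, by omega⟩
    have := (Nat.prime_dvd_prime_iff_eq hp hp').mp (Int.natCast_dvd.mp hdvd)
    omega
  · have h3 : b < (ip b α s).natAbs := h1
    exact ⟨s, ⟨by omega, hp⟩, by omega⟩

/-! ### Special cases -/

/-- A recurrent word has initial segments with arbitrarily many borders. -/
theorem borders_of_recurrent {β : Type} (w : ℕ → β)
    (h : ∀ L, ∃ t, 1 ≤ t ∧ ∀ i < L, w (t + i) = w i) (k : ℕ) :
    ∃ (L : ℕ) (B : Finset ℕ), B.card = k ∧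
      ∀ l ∈ B, 1 ≤ l ∧ l ≤ L ∧ ∀ i < l, w (L - l + i) = w i := by
  induction k with
  | zero => exact ⟨0, ∅, rfl, by simp⟩
  | succ k ih =>
    obtain ⟨L, B, hB, hb⟩ := ih
    obtain ⟨t, ht, hw⟩ := h L
    refine ⟨t + L, insert (t + L) B, ?_, ?_⟩
    · rw [Finset.card_insert_of_notMem, hB]
      intro hm
      have := (hb _ hm).2.1
      omega
    · intro l hl
      rcases Finset.mem_insert.mp hl with rfl | hl
      · exact ⟨by omega, le_rfl, fun i _ => by simp⟩
      · obtain ⟨h1, h2, h3⟩ := hb l hl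
        refine ⟨h1, by omega, fun i hi => ?_⟩
        rw [show t + L - l + i = t + (L - l + i) by omega, hw _ (by omega), h3 i hi]

/-- Blocks whose lengths and values are recurrent modulo every prime `q > b`. -/
theorem of_blocks (b : ℕ) (hb : 2 ≤ b) (α : ℝ) (hα : α ≠ 0) (n : ℕ → ℕ) (hn : StrictMono n)
    (h : ∀ q : ℕ, q.Prime → b < q → ∀ L, ∃ t, 1 ≤ t ∧ ∀ i < L, Agree b α n q (t + i) i) :
    {m : ℕ | Composite (ip b α m)}.Infinite := by
  refine result b hb α hα fun N => ⟨n N, hn.le_apply, fun q hq hbq _ => ?_⟩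
  obtain ⟨L, B, hB, hbd⟩ := borders_of_recurrent
    (fun i => (b ^ (n (N + i + 1) - n (N + i)) % q, block b α (n (N + i)) (n (N + i + 1)) % q))
    (fun L => by
      obtain ⟨t, ht, hti⟩ := h q hq hbq (N + L)
      refine ⟨t, ht, fun i hi => ?_⟩
      obtain ⟨e1, e2⟩ := hti (N + i) (by omega)
      rw [show N + (t + i) = t + (N + i) by omega]
      exact Prod.ext e1 e2) q
  refine ⟨fun i => n (N + i), fun i j hij => hn (by omega), rfl, L, B, hB.ge, fun l hl => ?_⟩
  obtain ⟨h1, h2, h3⟩ := hbd l hl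
  refine ⟨h1, h2, fun i hi => ?_⟩
  have := h3 i hi
  exact ⟨congrArg Prod.fst this, congrArg Prod.snd this⟩

/-- Every nonzero real number whose base `b` digit word is eventually recurrent. -/
theorem of_recurrent (b : ℕ) (hb : 2 ≤ b) (α : ℝ) (hα : α ≠ 0) (n₀ : ℕ)
    (h : ∀ L, ∃ t, 1 ≤ t ∧ ∀ i < L,
      ⌊(b : ℝ) * Int.fract ((b : ℝ) ^ (n₀ + t + i) * α)⌋ =
        ⌊(b : ℝ) * Int.fract ((b : ℝ) ^ (n₀ + i) * α)⌋) :
    {m : ℕ | Composite (ip b α m)}.Infinite := by
  have hd : ∀ m, block b α m (m + 1) = ⌊(b : ℝ) * Int.fract ((b : ℝ) ^ m * α)⌋ := by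
    intro m
    have := floor_step b α m 1
    simp only [block, ip, Nat.add_sub_cancel_left, this, pow_one]
    ring
  refine of_blocks b hb α hα (fun i => n₀ + i) (fun i j hij => Nat.add_lt_add_left hij _)
    fun q _ _ L => ?_
  obtain ⟨t, ht, hti⟩ := h L
  refine ⟨t, ht, fun i hi => ⟨?_, ?_⟩⟩
  · simp only [← add_assoc, Nat.add_sub_cancel_left]
    rfl
  · simp only [← add_assoc, hd, hti i hi]
    rfl

open MeasureTheory in
/-- Almost every fractional part, for every finite measure invariant under `x ↦ {b x}`. -/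
theorem ae_of_invariant (b : ℕ) (hb : 2 ≤ b) (μ : Measure ℝ) [IsFiniteMeasure μ]
    (hμ : MeasurePreserving (fun x : ℝ => Int.fract ((b : ℝ) * x)) μ μ) :
    ∀ᵐ x ∂μ, ∀ z : ℤ, (z : ℝ) + x ≠ 0 → {m : ℕ | Composite (ip b (z + x) m)}.Infinite := by
  set T : ℝ → ℝ := fun x => Int.fract ((b : ℝ) * x) with hT
  have hTm : Measurable T := hμ.measurable
  let D : ℕ → ℝ → ℤ := fun i x => ⌊(b : ℝ) * T^[i] x⌋
  have hD : ∀ i, Measurable (D i) := fun i =>
    Int.measurable_floor.comp ((hTm.iterate i).const_mul _)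
  have hcyl : ∀ p : Σ L : ℕ, Fin L → ℤ, ∀ᵐ x ∂μ, x ∈ {y | ∀ i : Fin p.1, D i y = p.2 i} →
      ∃ᶠ t in Filter.atTop, T^[t] x ∈ {y | ∀ i : Fin p.1, D i y = p.2 i} := by
    intro p
    refine hμ.conservative.ae_mem_imp_frequently_image_mem (MeasurableSet.nullMeasurableSet ?_)
    rw [Set.ofPred_forall]
    exact MeasurableSet.iInter fun i => hD i (measurableSet_singleton _)
  filter_upwards [ae_all_iff.mpr hcyl] with x hx z hz
  have hit : ∀ i : ℕ, Int.fract ((b : ℝ) ^ (i + 1) * (z + x)) = T^[i + 1] x := by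
    intro i
    induction i with
    | zero =>
      simp only [zero_add, pow_one, Function.iterate_one, hT]
      rw [mul_add, ← Int.cast_natCast, ← Int.cast_mul, Int.fract_intCast_add]
    | succ i ih =>
      rw [Function.iterate_succ_apply', ← ih]
      simp only [hT]
      have : (b : ℝ) ^ (i + 1 + 1) * (z + x) =
          ((b * ⌊(b : ℝ) ^ (i + 1) * (z + x)⌋ : ℤ) : ℝ) +
            b * Int.fract ((b : ℝ) ^ (i + 1) * (z + x)) := by
        rw [Int.fract]; push_cast; ring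
      rw [this, Int.fract_intCast_add]
  refine of_recurrent b hb _ hz 1 fun L => ?_
  obtain ⟨t, ht, h1⟩ := ((hx ⟨L + 1, fun i => D i x⟩ (fun _ => rfl)).and_eventually
    (Filter.eventually_ge_atTop 1)).exists
  refine ⟨t, h1, fun i hi => ?_⟩
  have := ht ⟨i + 1, Nat.succ_lt_succ hi⟩
  simp only [D, ← Function.iterate_add_apply] at this
  rw [show 1 + t + i = (i + t) + 1 by omega, show 1 + i = i + 1 by omega, hit, hit, ← this,
    show i + 1 + t = i + t + 1 by omega]

end Pool.Agent.Results.MP_7b3100_nt.Recurrent
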