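import Pool.Agent.P.MP_7b3100_nt.DZ.Dens

/-! Outside a set of small Hausdorff dimension, a fixed positive proportion of the integer parts
of `b ^ n α` are composite with a prime factor below a fixed bound. -/

namespace Pool.Agent.Results.MP_7b3100_nt.SmallDivisors

/-- `z` is composite: `|z| ≥ 2` and `|z|` is not prime. -/
def Composite (z : ℤ) : Prop := 2 ≤ z.natAbs ∧ ¬ z.natAbs.Prime

theorem result (b : ℕ) (hb : 2 ≤ b) (ε : ℝ) (hε : 0 < ε) :
    ∃ (Y : ℕ) (δ : ℝ), 0 < δ ∧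
      dimH {α : ℝ | ∃ᶠ N : ℕ in Filter.atTop,
        ({n : ℕ | n < N ∧ Composite ⌊(b : ℝ) ^ n * α⌋ ∧
          ∃ q : ℕ, q.Prime ∧ q ≤ Y ∧ (q : ℤ) ∣ ⌊(b : ℝ) ^ n * α⌋}.ncard : ℝ) ≤ δ * N} ≤
        ENNReal.ofReal ε :=
  Pool.Agent.P.MP_7b3100_nt.DZ.Dens.main hb hε

/-- The composite terms have positive lower density outside a set of dimension zero. -/
theorem lower_density (b : ℕ) (hb : 2 ≤ b) :
    dimH {α : ℝ | ∀ δ : ℝ, 0 < δ → ∃ᶠ N : ℕ in Filter.atTop,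
      ({n : ℕ | n < N ∧ Composite ⌊(b : ℝ) ^ n * α⌋}.ncard : ℝ) ≤ δ * N} = 0 := by
  refine le_antisymm (ENNReal.le_of_forall_pos_le_add fun s hs _ => ?_) zero_le
  obtain ⟨Y, δ, hδ, h⟩ := result b hb s hs
  rw [zero_add, ← ENNReal.ofReal_coe_nnreal]
  refine (dimH_mono fun α hα => (hα δ hδ).mono fun N hN => le_trans ?_ hN).trans h
  exact Nat.cast_le.2 (Set.ncard_le_ncard (fun n hn => ⟨hn.1, hn.2.1⟩)
    ((Set.finite_lt_nat N).subset fun n hn => hn.1))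

/-- The set of `α` with finitely many composite terms has dimension zero. -/
theorem finitely_many (b : ℕ) (hb : 2 ≤ b) :
    dimH {α : ℝ | {n : ℕ | Composite ⌊(b : ℝ) ^ n * α⌋}.Finite} = 0 := by
  refine le_antisymm ((dimH_mono fun α hα δ hδ => ?_).trans (lower_density b hb).le) zero_le
  obtain ⟨N0, h0⟩ := exists_nat_ge (({n : ℕ | Composite ⌊(b : ℝ) ^ n * α⌋}.ncard : ℝ) / δ)
  refine ((Filter.eventually_ge_atTop N0).mono fun N hN => ?_).frequently
  rw [div_le_iff₀ hδ, mul_comm] at h0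
  refine (Nat.cast_le.2 (Set.ncard_le_ncard (fun n hn => hn.2) hα)).trans (h0.trans ?_)
  gcongr

end Pool.Agent.Results.MP_7b3100_nt.SmallDivisors
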